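import Pool.Agent.W783.Perc.Stmts2
import Pool.Agent.W45.PC.PT1

/-! Harris inequality for product Bernoulli measures (`S_harris`). -/

set_option autoImplicit false

open MeasureTheory Set

namespace Pool.Agent.W333.PC

open Pool.Agent.W783.PC

open scoped Classical in
/-- set the coordinate `c` to `b` -/
noncomputable def up {ι : Type} (c : ι) (b : Bool) (ω : ι → Bool) : ι → Bool :=
  fun i => if i = c then b else ω i

theorem up_self {ι : Type} (c : ι) (b : Bool) (ω : ι → Bool) : up c b ω c = b := by
  unfold up; rw [if_pos rfl]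

theorem up_ne {ι : Type} {c i : ι} (h : i ≠ c) (b : Bool) (ω : ι → Bool) : up c b ω i = ω i := by
  unfold up; rw [if_neg h]

/-- the event after setting the coordinate `c` to `b` -/
def sec {ι : Type} (c : ι) (b : Bool) (A : Set (ι → Bool)) : Set (ι → Bool) :=
  {ω | up c b ω ∈ A}

theorem meas_coord {ι : Type} (c : ι) (b : Bool) : MeasurableSet {ω : ι → Bool | ω c = b} := by
  have : {ω : ι → Bool | ω c = b} = (fun ω : ι → Bool => ω c) ⁻¹' {b} := by
    ext ω
    simp
  rw [this]
  exact (measurable_pi_apply c) (MeasurableSet.singleton b)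

theorem sec_dep {ι : Type} [DecidableEq ι] {F : Finset ι} {c : ι} {b : Bool} {A : Set (ι → Bool)}
    (h : DepOn A ((insert c F : Finset ι) : Set ι)) : DepOn (sec c b A) (F : Set ι) := by
  classical
  intro ω ω' hω
  refine h _ _ fun i hi => ?_
  by_cases hic : i = c
  · subst hic
    rw [up_self, up_self]
  · have : i ∈ F := by
      rcases Finset.mem_insert.1 (Finset.mem_coe.1 hi) with h1 | h1
      · exact absurd h1 hic
      · exact h1
    rw [up_ne hic, up_ne hic]
    exact hω i this

theorem sec_inc {ι : Type} {c : ι} {b : Bool} {A : Set (ι → Bool)} (h : Inc A) :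
    Inc (sec c b A) := by
  classical
  intro ω ω' hω hA
  refine h _ _ (fun i hi => ?_) hA
  by_cases hic : i = c
  · subst hic
    rw [up_self] at hi ⊢
    exact hi
  · rw [up_ne hic] at hi ⊢
    exact hω i hi

theorem sec_mono {ι : Type} {c : ι} {A : Set (ι → Bool)} (h : Inc A) :
    sec c false A ⊆ sec c true A := by
  classical
  intro ω hA
  refine h _ _ (fun i hi => ?_) hA
  by_cases hic : i = c
  · subst hic
    rw [up_self]
  · rw [up_ne hic] at hi ⊢
    exact hi

theorem sec_inter {ι : Type} {c : ι} {b : Bool} {A B : Set (ι → Bool)} :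
    sec c b (A ∩ B) = sec c b A ∩ sec c b B := rfl

theorem pm_coord {ι : Type} (r : ι → unitInterval) (c : ι) (b : Bool) :
    (pm r).real {ω | ω c = b} = if b = true then (r c : ℝ) else 1 - (r c : ℝ) := by
  have h : {ω : ι → Bool | ω c = b} = Set.pi (({c} : Finset ι) : Set ι) fun _ => {b} := by
    ext ω
    simp
  rw [Measure.real, h]
  unfold pm
  rw [Measure.infinitePi_pi _ fun _ _ => MeasurableSet.singleton _]
  simp only [Finset.prod_singleton]
  cases b
  · rw [Pool.Agent.W45.PC.bern_false, ENNReal.toReal_ofReal (by linarith [(r c).2.2])]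
    simp
  · rw [Pool.Agent.W45.PC.bern_true, ENNReal.toReal_ofReal (r c).2.1]
    simp

theorem pm_split {ι : Type} [DecidableEq ι] (r : ι → unitInterval) {F : Finset ι} {c : ι}
    (hc : c ∉ F) {A : Set (ι → Bool)} (h : DepOn A ((insert c F : Finset ι) : Set ι)) :
    (pm r).real A = (r c : ℝ) * (pm r).real (sec c true A)
      + (1 - (r c : ℝ)) * (pm r).real (sec c false A) := by
  classical
  have key : ∀ b : Bool, (pm r).real (A ∩ {ω | ω c = b})
      = (pm r).real (sec c b A) * (pm r).real {ω | ω c = b} := by
    intro b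
    have e : A ∩ {ω | ω c = b} = sec c b A ∩ {ω | ω c = b} := by
      ext ω
      simp only [mem_inter_iff, mem_ofPred_eq, and_congr_left_iff]
      intro hb
      have : up c b ω = ω := by
        funext i
        by_cases hic : i = c
        · subst hic
          rw [up_self, hb]
        · rw [up_ne hic]
      show ω ∈ A ↔ up c b ω ∈ A
      rw [this]
    rw [e]
    have hm1 : MeasurableSet (sec c b A) := Pool.Agent.W45.PC.s_depmeas ι F _ (sec_dep h)
    have hm2 : MeasurableSet {ω : ι → Bool | ω c = b} := meas_coord c b
    have hi := Pool.Agent.W45.PC.s_indep ι r (F : Set ι) {c} (sec c b A) {ω | ω c = b} (sec_dep h)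
      (by
        intro ω ω' hω
        have := hω c rfl
        simp only [mem_ofPred_eq]
        rw [this]) (by
        rw [Set.disjoint_singleton_right]
        exact hc) hm1 hm2
    rw [Measure.real, hi, ENNReal.toReal_mul]
    rfl
  have hm2 : ∀ b : Bool, MeasurableSet {ω : ι → Bool | ω c = b} := fun b => meas_coord c b
  have h1 : (pm r).real A = (pm r).real (A ∩ {ω | ω c = true}) +
      (pm r).real (A ∩ {ω | ω c = false}) := by
    have h2 := measureReal_inter_add_sdiff (μ := pm r) (s := A) (hm2 true)
    have h3 : A \ {ω | ω c = true} = A ∩ {ω | ω c = false} := by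
      ext ω
      simp only [mem_sdiff, mem_inter_iff, mem_ofPred_eq, Bool.not_eq_true]
    rw [h3] at h2
    exact h2.symm
  rw [h1, key, key, pm_coord, pm_coord]
  simp
  ring

theorem s_harris : S_harris := by
  classical
  intro ι r F
  induction F using Finset.induction_on with
  | empty =>
    intro A B hA hB _ _
    have triv : ∀ A : Set (ι → Bool), DepOn A ((∅ : Finset ι) : Set ι) → A = ∅ ∨ A = univ := by
      intro A hA
      rcases A.eq_empty_or_nonempty with h | ⟨ω, hω⟩
      · exact Or.inl h
      · right
        ext ω'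
        simp only [mem_univ, iff_true]
        exact (hA ω ω' (by simp)).1 hω
    rcases triv A hA with h | h
    · subst h; simp
    · subst h; simp
  | insert c F hc ih =>
    intro A B hA hB hiA hiB
    have hAB : DepOn (A ∩ B) ((insert c F : Finset ι) : Set ι) := by
      intro ω ω' h
      exact and_congr (hA ω ω' h) (hB ω ω' h)
    rw [pm_split r hc hA, pm_split r hc hB, pm_split r hc hAB, sec_inter, sec_inter]
    have h1 := ih (sec c true A) (sec c true B) (sec_dep hA) (sec_dep hB) (sec_inc hiA) (sec_inc hiB)
    have h0 := ih (sec c false A) (sec c false B) (sec_dep hA) (sec_dep hB) (sec_inc hiA)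
      (sec_inc hiB)
    have hmA : (pm r).real (sec c false A) ≤ (pm r).real (sec c true A) :=
      measureReal_mono (sec_mono hiA)
    have hmB : (pm r).real (sec c false B) ≤ (pm r).real (sec c true B) :=
      measureReal_mono (sec_mono hiB)
    have hr0 : (0 : ℝ) ≤ r c := (r c).2.1
    have hr1 : (0 : ℝ) ≤ 1 - r c := by linarith [(r c).2.2]
    set a1 := (pm r).real (sec c true A)
    set a0 := (pm r).real (sec c false A)
    set b1 := (pm r).real (sec c true B)
    set b0 := (pm r).real (sec c false B)
    set q : ℝ := (r c : ℝ)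
    have h2 : q * (a1 * b1) ≤ q * (pm r).real (sec c true A ∩ sec c true B) :=
      mul_le_mul_of_nonneg_left h1 hr0
    have h3 : (1 - q) * (a0 * b0) ≤ (1 - q) * (pm r).real (sec c false A ∩ sec c false B) :=
      mul_le_mul_of_nonneg_left h0 hr1
    have h4 : 0 ≤ q * (1 - q) * ((a1 - a0) * (b1 - b0)) :=
      mul_nonneg (mul_nonneg hr0 hr1) (mul_nonneg (by linarith) (by linarith))
    nlinarith

end Pool.Agent.W333.PC
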